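import Pool.Agent.H332Z.EA.Bounded

set_option autoImplicit false

namespace Pool.Agent.Results.MP_2bb948_al.AGenericEA

universe u v

/-- The space `D` of bi-invariant metrics with values in `[0,1]` on the free group on countably
many generators, with the topology of pointwise convergence (subspace of the product). -/
abbrev D : Type := {ρ : FreeGroup ℕ → FreeGroup ℕ → ℝ //
  (∀ g h, ρ g h = 0 ↔ g = h) ∧ (∀ g h, ρ g h = ρ h g) ∧ (∀ g h k, ρ g k ≤ ρ g h + ρ h k) ∧
  (∀ g h k, ρ (k * g) (k * h) = ρ g h) ∧ (∀ g h k, ρ (g * k) (h * k) = ρ g h) ∧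
  (∀ g h, ρ g h ∈ Set.Icc (0 : ℝ) 1)}

/-- The complete metric group `G` is the metric completion of the free group with the metric `ρ`:
there is a distance preserving homomorphism with dense range. -/
def IsCompletionOf (ρ : D) (G : Type u) [Group G] [MetricSpace G] : Prop :=
  ∃ φ : FreeGroup ℕ →* G, DenseRange φ ∧ ∀ g h, dist (φ g) (φ h) = ρ.1 g h

/-- Every continuous action on a nonempty compact Hausdorff space has a fixed point. -/
def ExtremelyAmenable (G : Type u) [Group G] [TopologicalSpace G] : Prop :=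
  ∀ (X : Type v) [TopologicalSpace X] [CompactSpace X] [T2Space X] [Nonempty X] [MulAction G X]
    [ContinuousSMul G X], ∃ x : X, ∀ g : G, g • x = x

/-- The generic Polish group with a bi-invariant metric bounded by one is extremely amenable. -/
theorem result (G : Type u) [Group G] [MetricSpace G] [CompleteSpace G]
    (_hl : ∀ g h k : G, dist (k * g) (k * h) = dist g h)
    (_hr : ∀ g h k : G, dist (g * k) (h * k) = dist g h)
    (hgen : {ρ : D | IsCompletionOf ρ G} ∈ residual D) :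
    ExtremelyAmenable.{u, v} G := by
  intro X _ _ _ _ _ _
  have hP : ∀ ρ : FreeGroup ℕ → FreeGroup ℕ → ℝ, ((∀ g h, ρ g h = 0 ↔ g = h) ∧
      (∀ g h, ρ g h = ρ h g) ∧ (∀ g h k, ρ g k ≤ ρ g h + ρ h k) ∧
      (∀ g h k, ρ (k * g) (k * h) = ρ g h) ∧ (∀ g h k, ρ (g * k) (h * k) = ρ g h) ∧
      (∀ g h, ρ g h ∈ Set.Icc (0 : ℝ) 1)) ↔
      (H332Z.EA.IsBI ρ ∧ ∀ g h, ρ g h ≤ 1) ∧ ∀ g h, g ≠ h → ρ g h ≠ 0 := by
    intro ρ
    constructor
    · rintro ⟨h1, h2, h3, h4, h5, h6⟩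
      exact ⟨⟨⟨fun g => (h1 g g).2 rfl, h2, h3, h4, h5⟩, fun g h => (h6 g h).2⟩,
        fun g h hgh hd => hgh ((h1 g h).1 hd)⟩
    · rintro ⟨⟨h1, h3⟩, h2⟩
      refine ⟨fun g h => ⟨fun hd => ?_, fun hgh => hgh ▸ h1.refl g⟩, h1.symm, h1.tri, h1.left,
        h1.right, fun g h => ⟨h1.nonneg g h, h3 g h⟩⟩
      by_contra hgh
      exact h2 g h hgh hd
  obtain ⟨ρ, ⟨φ, hφ, hφd⟩, hR⟩ := H332Z.EA.exists_ram_of_residual _ hP _ hgen
  exact H332Z.EA.fix_of_dense ((hP _).1 ρ.2).1.1 hR φ hφ hφd X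

end Pool.Agent.Results.MP_2bb948_al.AGenericEA
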